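import Mathlib
import Pool.Agent.H759R2.Kad.Props7

open scoped ComplexOrder InnerProductSpace ComplexConjugate
open Finset

noncomputable section

namespace H759R2.Kad

universe u v

namespace H983Orth

variable {N : Type u} [CStarAlgebra N]

/-- Unitaries from a system of partial isometries and permutations. -/
theorem orth_abs (τ : N →ₗ[ℂ] ℂ) (hτ : IsTracialState τ) {X : Type} [Fintype X] [DecidableEq X]
    (u : X → N) (p : X → N) (hu : ∀ x y, star (u x) * u y = if x = y then p x else 0)
    (hup : ∀ x, u x * p x = u x) (hsum : ∑ x, u x * star (u x) = 1) (K : ℕ)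
    (σ : Fin K → Equiv.Perm X) (hσp : ∀ i x, p (σ i x) = p x)
    (hσ : ∀ i j, i ≠ j → ∀ x, σ i x ≠ σ j x) :
    ∃ h : Fin K → unitary N, ∀ i j, i ≠ j → τ (star (h i : N) * (h j : N)) = 0 := by
  have hst : ∀ i, star (∑ x, u (σ i x) * star (u x)) = ∑ x, u x * star (u (σ i x)) := by
    intro i
    rw [star_sum]
    exact sum_congr rfl (fun x _ => by rw [star_mul, star_star])
  have hprod : ∀ i j x y, (u x * star (u (σ i x))) * (u (σ j y) * star (u y)) =
      u x * (if σ i x = σ j y then p (σ i x) else 0) * star (u y) := by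
    intro i j x y
    rw [← hu]
    simp only [mul_assoc]
  have h1 : ∀ i, star (∑ x, u (σ i x) * star (u x)) * (∑ x, u (σ i x) * star (u x)) = 1 := by
    intro i
    rw [hst, sum_mul_sum]
    have : ∀ x, ∑ y, (u x * star (u (σ i x))) * (u (σ i y) * star (u y)) =
        u x * star (u x) := by
      intro x
      rw [sum_eq_single x]
      · rw [hprod, if_pos rfl, hσp, hup]
      · intro y _ hy
        rw [hprod, if_neg (fun h => hy ((σ i).injective h).symm)]
        simp
      · simp
    rw [sum_congr rfl (fun x _ => this x), hsum]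
  have h2 : ∀ i, (∑ x, u (σ i x) * star (u x)) * star (∑ x, u (σ i x) * star (u x)) = 1 := by
    intro i
    rw [hst, sum_mul_sum]
    have : ∀ x, ∑ y, (u (σ i x) * star (u x)) * (u y * star (u (σ i y))) =
        u (σ i x) * star (u (σ i x)) := by
      intro x
      have e : ∀ y, (u (σ i x) * star (u x)) * (u y * star (u (σ i y))) =
          u (σ i x) * (star (u x) * u y) * star (u (σ i y)) := by
        intro y; simp only [mul_assoc]
      rw [sum_eq_single x]
      · rw [e, hu, if_pos rfl, ← hσp i x, hup]
      · intro y _ hy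
        rw [e, hu, if_neg (fun h => hy h.symm)]
        simp
      · simp
    rw [sum_congr rfl (fun x _ => this x), ← hsum]
    exact Equiv.sum_comp (σ i) (fun x => u x * star (u x))
  refine ⟨fun i => ⟨∑ x, u (σ i x) * star (u x), Unitary.mem_iff.2 ⟨h1 i, h2 i⟩⟩, ?_⟩
  intro i j hij
  simp only
  rw [hst, sum_mul_sum, map_sum]
  apply sum_eq_zero
  intro x _
  rw [map_sum]
  apply sum_eq_zero
  intro y _
  rw [hprod, hτ.comm]
  by_cases hxy : y = x
  · subst hxy
    rw [if_neg (hσ i j hij y)]
    simp
  · have e : ∀ z : N, star (u y) * (u x * z) = 0 := by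
      intro z
      rw [← mul_assoc, hu, if_neg hxy, zero_mul]
    rw [e, map_zero]

theorem eq_of_star (a b : N) (h : star (a - b) * (a - b) = 0) : a = b :=
  sub_eq_zero.1 ((CStarRing.star_mul_self_eq_zero_iff _).1 h)

end H983Orth

open H983Orth

theorem prove7_orth : Q_orth.{u} := by
  intro N _ hV τ hτ K
  obtain ⟨V, P, hT, T, hT1, hT2⟩ := hV ((K + 1) + K)
  change Fin ((K + 1) + (K + 1)) → N at V
  have hP1 : star P = P := hT.pr.1
  have hP2 : P * P = P := hT.pr.2
  have hrel : ∀ i j : Fin ((K + 1) + (K + 1)), star (V i) * V j = if i = j then P else 0 := hT.rel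
  have hVP : ∀ i, V i * P = V i := by
    intro i
    apply eq_of_star
    have h := hrel i i
    rw [if_pos rfl] at h
    rw [star_sub, star_mul, hP1, sub_mul, mul_sub, mul_sub]
    simp only [← mul_assoc, mul_assoc P (star (V i)) (V i), h]
    simp [hP2]
  have hPV : ∀ i, P * star (V i) = star (V i) := by
    intro i
    have := congrArg star (hVP i)
    rwa [star_mul, hP1] at this
  change star T * T = 1 - ∑ i : Fin ((K + 1) + (K + 1)), V i * star (V i) at hT1
  set G : N := ∑ i : Fin ((K + 1) + (K + 1)), V i * star (V i) with hG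
  have hGV : ∀ j, G * V j = V j := by
    intro j
    rw [hG, sum_mul, sum_eq_single j]
    · rw [mul_assoc, hrel, if_pos rfl, hVP]
    · intro i _ hij
      rw [mul_assoc, hrel, if_neg hij, mul_zero]
    · simp
  set R : N := star T * T with hR
  have hRV : ∀ j, R * V j = 0 := by
    intro j
    rw [hT1, sub_mul, one_mul, hGV, sub_self]
  have hTV : ∀ j, T * V j = 0 := by
    intro j
    rw [← CStarRing.star_mul_self_eq_zero_iff, star_mul]
    have : star (V j) * star T * (T * V j) = star (V j) * (R * V j) := by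
      rw [hR]; simp only [mul_assoc]
    rw [this, hRV, mul_zero]
  have hRR : R * R = R := by
    nth_rewrite 2 [hT1]
    rw [mul_sub, mul_one, hG, mul_sum]
    have : ∀ i, R * (V i * star (V i)) = 0 := by
      intro i; rw [← mul_assoc, hRV, zero_mul]
    simp [this]
  have hTR : T * R = T := by
    apply eq_of_star
    have hRs : star R = R := by rw [hR, star_mul, star_star]
    rw [star_sub, star_mul, hRs, sub_mul, mul_sub, mul_sub]
    have e1 : R * star T * (T * R) = R * R * R := by rw [hR]; simp only [mul_assoc]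
    have e2 : R * star T * T = R * R := by rw [hR]; simp only [mul_assoc]
    have e3 : star T * (T * R) = R * R := by rw [hR]; simp only [mul_assoc]
    rw [e1, e2, e3, ← hR, hRR, hRR]
    simp
  have hRT : R * star T = star T := by
    have hRs : star R = R := by rw [hR, star_mul, star_star]
    have := congrArg star hTR
    rwa [star_mul, hRs] at this
  set E : N := T * star T with hE
  have hEE : E * E = E := by
    rw [hE]
    have : T * star T * (T * star T) = T * (R * star T) := by rw [hR]; simp only [mul_assoc]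
    rw [this, hRT]
  have hEs : star E = E := by rw [hE, star_mul, star_star]
  have hPE : P * E = E := by rw [hE, ← mul_assoc, hT2]
  have hEP : E * P = E := by
    have := congrArg star hPE
    rwa [star_mul, hP1, hEs] at this
  have hTE : star T * E = star T := by rw [hE, ← mul_assoc, ← hR, hRT]
  -- the three families
  let u1 : Fin (K + 2) → N := Fin.cons (star T) (fun i : Fin (K + 1) => V (Fin.castAdd (K + 1) i) * E)
  let u2 : Fin (K + 1) → N := fun i => V (Fin.castAdd (K + 1) i) * (P - E)
  let u3 : Fin (K + 1) → N := fun i => V (Fin.natAdd (K + 1) i)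
  let u : (Fin (K + 2) ⊕ Fin (K + 1)) ⊕ Fin (K + 1) → N := Sum.elim (Sum.elim u1 u2) u3
  let p : (Fin (K + 2) ⊕ Fin (K + 1)) ⊕ Fin (K + 1) → N :=
    Sum.elim (Sum.elim (fun _ => E) (fun _ => P - E)) (fun _ => P)
  have hQs : star (P - E) = P - E := by rw [star_sub, hP1, hEs]
  have hQQ : (P - E) * (P - E) = P - E := by
    rw [sub_mul, mul_sub, mul_sub, hP2, hPE, hEP, hEE]; simp
  have hEQ : E * (P - E) = 0 := by rw [mul_sub, hEP, hEE, sub_self]
  have hQE : (P - E) * E = 0 := by rw [sub_mul, hPE, hEE, sub_self]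
  have hQP : (P - E) * P = P - E := by rw [sub_mul, hP2, hEP]
  have hne : ∀ (i j : Fin (K + 1)), (Fin.castAdd (K + 1) i) ≠ (Fin.natAdd (K + 1) j) := by
    intro i j h
    have := congrArg Fin.val h
    simp only [Fin.val_castAdd, Fin.val_natAdd] at this
    omega
  have hca : ∀ (i j : Fin (K + 1)), (Fin.castAdd (K + 1) i = Fin.castAdd (K + 1) j) ↔ i = j := by
    intro i j
    exact ⟨fun h => Fin.ext (by simpa using congrArg Fin.val h), fun h => by rw [h]⟩
  have hna : ∀ (i j : Fin (K + 1)), (Fin.natAdd (K + 1) i = Fin.natAdd (K + 1) j) ↔ i = j := by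
    intro i j
    exact ⟨fun h => Fin.ext (by simpa using congrArg Fin.val h), fun h => by rw [h]⟩
  -- products
  have hmid : ∀ (a b : N) (i j : Fin ((K + 1) + (K + 1))),
      star (V i * a) * (V j * b) = if i = j then star a * (P * b) else 0 := by
    intro a b i j
    rw [star_mul]
    have e : star a * star (V i) * (V j * b) = star a * ((star (V i) * V j) * b) := by
      simp only [mul_assoc]
    rw [e, hrel]
    split_ifs with h
    · rfl
    · simp
  have hmid1 : ∀ (b : N) (i j : Fin ((K + 1) + (K + 1))),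
      star (V i) * (V j * b) = if i = j then P * b else 0 := by
    intro b i j
    rw [← mul_assoc, hrel]
    split_ifs with h
    · rfl
    · simp
  have hmid2 : ∀ (a : N) (i j : Fin ((K + 1) + (K + 1))),
      star (V i * a) * V j = if i = j then star a * P else 0 := by
    intro a i j
    rw [star_mul, mul_assoc, hrel]
    split_ifs with h
    · rfl
    · simp
  have hPQ : P * (P - E) = P - E := by rw [mul_sub, hP2, hPE]
  have hu1 : ∀ x y : Fin (K + 2), star (u1 x) * u1 y = if x = y then E else 0 := by
    intro x y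
    refine Fin.cases ?_ (fun x => ?_) x <;> refine Fin.cases ?_ (fun y => ?_) y
    · simp only [u1, Fin.cons_zero, star_star, if_true, hE]
    · simp only [u1, Fin.cons_zero, Fin.cons_succ, star_star]
      rw [← mul_assoc, hTV, zero_mul, if_neg (fun h => (Fin.succ_ne_zero y) h.symm)]
    · simp only [u1, Fin.cons_zero, Fin.cons_succ]
      rw [if_neg (Fin.succ_ne_zero x), ← star_mul, ← mul_assoc, hTV, zero_mul, star_zero]
    · simp only [u1, Fin.cons_succ]
      rw [hmid, hEs, hPE, hEE]
      simp only [hca, Fin.succ_inj]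
  have hu : ∀ x y, star (u x) * u y = if x = y then p x else 0 := by
    rintro ((x | x) | x) ((y | y) | y)
    · simp only [u, p, Sum.elim_inl, hu1, Sum.inl.injEq]
    · simp only [u, p, Sum.elim_inl, Sum.elim_inr, Sum.inl.injEq, reduceCtorEq, if_false]
      refine Fin.cases ?_ (fun x => ?_) x
      · simp only [u1, u2, Fin.cons_zero, star_star]
        rw [← mul_assoc, hTV, zero_mul]
      · simp only [u1, u2, Fin.cons_succ]
        rw [hmid, hEs, hPQ, hEQ, ite_self]
    · simp only [u, p, Sum.elim_inl, Sum.elim_inr, reduceCtorEq, if_false]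
      refine Fin.cases ?_ (fun x => ?_) x
      · simp only [u1, u3, Fin.cons_zero, star_star]
        rw [hTV]
      · simp only [u1, u3, Fin.cons_succ]
        rw [hmid2, if_neg (hne _ _)]
    · simp only [u, p, Sum.elim_inl, Sum.elim_inr, Sum.inl.injEq, reduceCtorEq, if_false]
      refine Fin.cases ?_ (fun y => ?_) y
      · simp only [u1, u2, Fin.cons_zero]
        rw [← star_mul, ← mul_assoc, hTV, zero_mul, star_zero]
      · simp only [u1, u2, Fin.cons_succ]
        rw [hmid, hQs, hPE, hQE, ite_self]
    · simp only [u, p, Sum.elim_inl, Sum.elim_inr, Sum.inl.injEq, Sum.inr.injEq, u2]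
      rw [hmid, hQs, hPQ, hQQ]
      simp only [hca]
    · simp only [u, p, Sum.elim_inl, Sum.elim_inr, reduceCtorEq, if_false, u2, u3]
      rw [hmid2, if_neg (hne _ _)]
    · simp only [u, p, Sum.elim_inl, Sum.elim_inr, reduceCtorEq, if_false]
      refine Fin.cases ?_ (fun y => ?_) y
      · simp only [u1, u3, Fin.cons_zero]
        rw [← star_mul, hTV, star_zero]
      · simp only [u1, u3, Fin.cons_succ]
        rw [hmid1, if_neg (fun h => hne _ _ h.symm)]
    · simp only [u, p, Sum.elim_inl, Sum.elim_inr, reduceCtorEq, if_false, u2, u3]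
      rw [hmid1, if_neg (fun h => hne _ _ h.symm)]
    · simp only [u, p, Sum.elim_inr, Sum.inr.injEq, u3]
      rw [hrel]
      simp only [hna]
  have hup : ∀ x, u x * p x = u x := by
    rintro ((x | x) | x)
    · simp only [u, p, Sum.elim_inl]
      refine Fin.cases ?_ (fun x => ?_) x
      · simp only [u1, Fin.cons_zero, hTE]
      · simp only [u1, Fin.cons_succ]
        rw [mul_assoc, hEE]
    · simp only [u, p, Sum.elim_inl, Sum.elim_inr, u2]
      rw [mul_assoc, hQQ]
    · simp only [u, p, Sum.elim_inr, u3, hVP]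
  have hsum : ∑ x, u x * star (u x) = 1 := by
    rw [Fintype.sum_sum_type, Fintype.sum_sum_type]
    simp only [u, Sum.elim_inl, Sum.elim_inr]
    rw [Fin.sum_univ_succ]
    simp only [u1, u2, u3, Fin.cons_zero, Fin.cons_succ, star_star, star_mul]
    have e1 : ∀ i : Fin (K + 1), V (Fin.castAdd (K + 1) i) * E * (star E * star (V (Fin.castAdd (K + 1) i))) +
        V (Fin.castAdd (K + 1) i) * (P - E) * (star (P - E) * star (V (Fin.castAdd (K + 1) i))) =
        V (Fin.castAdd (K + 1) i) * star (V (Fin.castAdd (K + 1) i)) := by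
      intro i
      rw [hEs, hQs]
      have a1 : V (Fin.castAdd (K + 1) i) * E * (E * star (V (Fin.castAdd (K + 1) i))) =
          V (Fin.castAdd (K + 1) i) * (E * E) * star (V (Fin.castAdd (K + 1) i)) := by
        simp only [mul_assoc]
      have a2 : V (Fin.castAdd (K + 1) i) * (P - E) * ((P - E) * star (V (Fin.castAdd (K + 1) i))) =
          V (Fin.castAdd (K + 1) i) * ((P - E) * (P - E)) * star (V (Fin.castAdd (K + 1) i)) := by
        simp only [mul_assoc]
      rw [a1, a2, hEE, hQQ, ← add_mul, ← mul_add, add_sub_cancel, hVP]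
    rw [add_assoc, add_assoc, ← add_assoc (∑ i : Fin (K + 1), _) (∑ i : Fin (K + 1), _),
      ← sum_add_distrib, sum_congr rfl (fun i _ => e1 i), ← Fin.sum_univ_add
        (fun i : Fin ((K + 1) + (K + 1)) => V i * star (V i)), ← hG, ← hR, hT1]
    simp
  -- the permutations
  let σ : Fin K → Equiv.Perm ((Fin (K + 2) ⊕ Fin (K + 1)) ⊕ Fin (K + 1)) := fun i =>
    Equiv.sumCongr (Equiv.sumCongr (Equiv.addRight (⟨i.1, by omega⟩ : Fin (K + 2)))
      (Equiv.addRight (⟨i.1, by omega⟩ : Fin (K + 1)))) (Equiv.addRight (⟨i.1, by omega⟩ : Fin (K + 1)))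
  refine orth_abs τ hτ u p hu hup hsum K σ ?_ ?_
  · rintro i ((x | x) | x) <;> rfl
  · rintro i j hij ((x | x) | x) h
    · simp only [σ, Equiv.sumCongr_apply, Sum.map_inl, Sum.inl.injEq, Equiv.coe_addRight,
        add_right_inj, Fin.mk.injEq] at h
      exact hij (Fin.ext h)
    · simp only [σ, Equiv.sumCongr_apply, Sum.map_inl, Sum.map_inr, Sum.inl.injEq, Sum.inr.injEq,
        Equiv.coe_addRight, add_right_inj, Fin.mk.injEq] at h
      exact hij (Fin.ext h)
    · simp only [σ, Equiv.sumCongr_apply, Sum.map_inr, Sum.inr.injEq, Equiv.coe_addRight,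
        add_right_inj, Fin.mk.injEq] at h
      exact hij (Fin.ext h)

end H759R2.Kad
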